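import Mathlib

namespace Pool.Agent.Results.MP_b44203_nt.SignChanges

open Finset Filter Topology

/-- `A_{p,q}`: the set of positive integers of the form `p^α q^β`. -/
def smoothSet (p q : ℕ) : Set ℕ := {m | ∃ α β : ℕ, m = p ^ α * q ^ β}

/-- `f_{p,q}(n)`: the number of finite subsets of `A_{p,q}` whose elements sum to `n`. -/
noncomputable def f (p q n : ℕ) : ℕ :=
  {S : Finset ℕ | (S : Set ℕ) ⊆ smoothSet p q ∧ ∑ s ∈ S, s = n}.ncard

/-- indexing function -/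
def a (p q : ℕ) (i : ℕ × ℕ) : ℕ := p ^ i.1 * q ^ i.2

lemma a_inj {p q : ℕ} (hp : 2 < p) (hq : 2 < q) (h : Nat.Coprime p q) :
    Function.Injective (a p q) := by
  rintro ⟨x, y⟩ ⟨x', y'⟩ hxy
  simp only [a] at hxy
  have hp0 : 0 < p := by omega
  have hq0 : 0 < q := by omega
  have key : ∀ {x y x' y' : ℕ}, p ^ x * q ^ y = p ^ x' * q ^ y' → x ≤ x' := by
    intro x y x' y' hh
    have h1 : p ^ x ∣ p ^ x' * q ^ y' := hh ▸ Dvd.intro _ rfl
    have h2 : p ^ x ∣ p ^ x' := (Nat.Coprime.pow x y' h).dvd_of_dvd_mul_right h1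
    exact (Nat.pow_dvd_pow_iff_le_right (by omega)).1 h2
  have hx : x = x' := le_antisymm (key hxy) (key hxy.symm)
  subst hx
  have : q ^ y = q ^ y' := Nat.eq_of_mul_eq_mul_left (by positivity) hxy
  have := Nat.pow_right_injective (by omega : 2 ≤ q) this
  simp [this]

/-- sum of a finite set of indices -/
def sm (p q : ℕ) (T : Finset (ℕ × ℕ)) : ℕ := ∑ i ∈ T, a p q i

lemma f_eq {p q : ℕ} (hp : 2 < p) (hq : 2 < q) (h : Nat.Coprime p q) (n : ℕ) :
    f p q n = {T : Finset (ℕ × ℕ) | sm p q T = n}.ncard := by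
  classical
  have hinj := a_inj hp hq h
  let e : (ℕ × ℕ) ↪ ℕ := ⟨a p q, hinj⟩
  have hset : {S : Finset ℕ | (S : Set ℕ) ⊆ smoothSet p q ∧ ∑ s ∈ S, s = n}
      = (Finset.map e) '' {T : Finset (ℕ × ℕ) | sm p q T = n} := by
    ext S
    constructor
    · rintro ⟨hS, hsum⟩
      have hS' : (S : Set ℕ) ⊆ Set.range (a p q) := by
        intro s hs
        obtain ⟨α, β, hαβ⟩ := hS hs
        exact ⟨(α, β), by simp [a, hαβ]⟩
      refine ⟨S.preimage (a p q) hinj.injOn, ?_, ?_⟩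
      · show sm p q _ = n
        unfold sm
        rw [Finset.sum_preimage (a p q) S hinj.injOn (fun x => x)]
        · exact hsum
        · intro x hx hx'
          exact absurd (hS' hx) hx'
      · ext x
        simp only [Finset.mem_map, Finset.mem_preimage]
        constructor
        · rintro ⟨y, hy, rfl⟩
          exact hy
        · intro hx
          obtain ⟨y, hy⟩ := hS' hx
          exact ⟨y, by rw [hy]; exact hx, hy⟩
    · rintro ⟨T, hT, rfl⟩
      refine ⟨?_, ?_⟩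
      · intro x hx
        simp only [Finset.coe_map, Set.mem_image] at hx
        obtain ⟨y, _, rfl⟩ := hx
        exact ⟨y.1, y.2, rfl⟩
      · rw [Finset.sum_map]
        exact hT
  unfold f
  rw [hset]
  exact Set.ncard_image_of_injective _ (Finset.map_injective e)

lemma fiber_finite {p q : ℕ} (hp : 2 < p) (hq : 2 < q) (h : Nat.Coprime p q) (n : ℕ) :
    {T : Finset (ℕ × ℕ) | sm p q T = n}.Finite := by
  classical
  have hfin : {i : ℕ × ℕ | a p q i ≤ n}.Finite :=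
    (Set.finite_Iic n).preimage (a_inj hp hq h).injOn
  refine (hfin.toFinset.powerset.finite_toSet).subset ?_
  intro T hT
  simp only [Finset.coe_powerset, Set.mem_preimage, Set.mem_powerset_iff]
  intro i hi
  simp only [Set.Finite.coe_toFinset, Set.mem_ofPred_eq]
  have : a p q i ≤ sm p q T :=
    Finset.single_le_sum (f := a p q) (fun _ _ => Nat.zero_le _) (by simpa using hi)
  rw [hT] at this
  exact this

lemma summable_norm {p q : ℕ} (hp : 2 < p) (hq : 2 < q) (h : Nat.Coprime p q)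
    {r : ℝ} (hr0 : 0 ≤ r) (hr1 : r < 1) : Summable (fun i => r ^ (a p q i)) :=
  (summable_geometric_of_lt_one hr0 hr1).comp_injective (a_inj hp hq h)

/-- the generating function -/
noncomputable def G (p q : ℕ) (z : ℂ) : ℂ := ∑' T : Finset (ℕ × ℕ), ∏ i ∈ T, z ^ (a p q i)

lemma summable_prod {p q : ℕ} (hp : 2 < p) (hq : 2 < q) (h : Nat.Coprime p q)
    {z : ℂ} (hz : ‖z‖ < 1) : Summable (fun T : Finset (ℕ × ℕ) => ∏ i ∈ T, z ^ (a p q i)) := by
  refine Summable.of_norm ?_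
  have := summable_finsetProd_of_summable_nonneg (f := fun i => ‖z‖ ^ (a p q i))
    (fun i => by positivity) (summable_norm hp hq h (norm_nonneg z) hz)
  simpa [norm_prod, norm_pow] using this

lemma hasProd_G {p q : ℕ} (hp : 2 < p) (hq : 2 < q) (h : Nat.Coprime p q)
    {z : ℂ} (hz : ‖z‖ < 1) : HasProd (fun i => 1 + z ^ (a p q i)) (G p q z) :=
  hasProd_one_add_of_hasSum_prod (summable_prod hp hq h hz).hasSum

lemma hasSum_G {p q : ℕ} (hp : 2 < p) (hq : 2 < q) (h : Nat.Coprime p q)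
    {z : ℂ} (hz : ‖z‖ < 1) : HasSum (fun n => (f p q n : ℂ) * z ^ n) (G p q z) := by
  have h1 := (summable_prod hp hq h hz).hasSum
  have h2 : HasSum (fun T : Finset (ℕ × ℕ) => z ^ (sm p q T)) (G p q z) := by
    have : (fun T : Finset (ℕ × ℕ) => z ^ (sm p q T))
        = fun T : Finset (ℕ × ℕ) => ∏ i ∈ T, z ^ (a p q i) := by
      ext T
      rw [Finset.prod_pow_eq_pow_sum]
      rfl
    rw [this]
    exact h1
  have h3 := (Equiv.hasSum_iff (Equiv.sigmaFiberEquiv (sm p q))).2 h2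
  refine HasSum.sigma (g := fun n => (f p q n : ℂ) * z ^ n) h3 ?_
  intro n
  have hfin := fiber_finite hp hq h n
  have : Fintype {T : Finset (ℕ × ℕ) // sm p q T = n} := hfin.fintype
  have hc : (f p q n : ℂ) * z ^ n = ∑ T : {T : Finset (ℕ × ℕ) // sm p q T = n}, z ^ n := by
    rw [Finset.sum_const, nsmul_eq_mul, f_eq hp hq h, Finset.card_univ,
      ← Nat.card_eq_fintype_card]
    rfl
  rw [hc]
  convert hasSum_fintype (fun T : {T : Finset (ℕ × ℕ) // sm p q T = n} =>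
    ((fun T => z ^ sm p q T) ∘ ⇑(Equiv.sigmaFiberEquiv (sm p q))) ⟨n, T⟩) using 1
  refine Finset.sum_congr rfl ?_
  intro T _
  simp only [Function.comp, Equiv.sigmaFiberEquiv_apply]
  rw [T.2]

/-! ### real values -/

lemma hasSum_prod_real {p q : ℕ} (hp : 2 < p) (hq : 2 < q) (h : Nat.Coprime p q)
    {r : ℝ} (hr0 : 0 ≤ r) (hr1 : r < 1) :
    HasSum (fun T : Finset (ℕ × ℕ) => ∏ i ∈ T, r ^ (a p q i))
      (∑' T : Finset (ℕ × ℕ), ∏ i ∈ T, r ^ (a p q i)) :=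
  (summable_finsetProd_of_summable_nonneg (f := fun i => r ^ (a p q i))
    (fun i => by positivity) (summable_norm hp hq h hr0 hr1)).hasSum

/-- the generating function at real points -/
noncomputable def Gr (p q : ℕ) (r : ℝ) : ℝ := ∑' T : Finset (ℕ × ℕ), ∏ i ∈ T, r ^ (a p q i)

lemma norm_ofReal_lt {r : ℝ} (hr0 : 0 ≤ r) (hr1 : r < 1) : ‖(r : ℂ)‖ < 1 := by
  rw [Complex.norm_real, Real.norm_eq_abs, abs_of_nonneg hr0]
  exact hr1

lemma G_ofReal {p q : ℕ} (r : ℝ) :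
    G p q (r : ℂ) = (Gr p q r : ℂ) := by
  unfold G Gr
  rw [Complex.ofReal_tsum]
  congr 1
  ext T
  push_cast
  rfl

lemma Gr_nonneg {p q : ℕ} {r : ℝ} (hr0 : 0 ≤ r) : 0 ≤ Gr p q r :=
  tsum_nonneg fun T => Finset.prod_nonneg fun i _ => by positivity

lemma hasSum_Gr {p q : ℕ} (hp : 2 < p) (hq : 2 < q) (h : Nat.Coprime p q)
    {r : ℝ} (hr0 : 0 ≤ r) (hr1 : r < 1) : HasSum (fun n => (f p q n : ℝ) * r ^ n) (Gr p q r) := by
  have h1 := hasSum_G hp hq h (norm_ofReal_lt hr0 hr1)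
  rw [G_ofReal] at h1
  have : (fun n => (f p q n : ℂ) * (r : ℂ) ^ n) = fun n => (((f p q n : ℝ) * r ^ n : ℝ) : ℂ) := by
    ext n; push_cast; rfl
  rw [this] at h1
  exact_mod_cast h1

lemma prod_le_Gr {p q : ℕ} (hp : 2 < p) (hq : 2 < q) (h : Nat.Coprime p q)
    {r : ℝ} (hr0 : 0 ≤ r) (hr1 : r < 1) (T : Finset (ℕ × ℕ)) :
    ∏ i ∈ T, (1 + r ^ (a p q i)) ≤ Gr p q r := by
  classical
  rw [Finset.prod_one_add]
  exact (hasSum_prod_real hp hq h hr0 hr1).summable.sum_le_tsum _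
    (fun S _ => Finset.prod_nonneg fun i _ => by positivity)

lemma tendsto_sq : Tendsto (fun B : ℕ => (range B ×ˢ range B : Finset (ℕ × ℕ))) atTop atTop := by
  apply Filter.tendsto_atTop_finset_of_monotone
  · intro B B' hB
    exact Finset.product_subset_product (Finset.range_mono hB) (Finset.range_mono hB)
  · rintro ⟨x, y⟩
    refine ⟨max x y + 1, ?_⟩
    simp only [Finset.mem_product, Finset.mem_range]
    omega

lemma tendsto_G {p q : ℕ} (hp : 2 < p) (hq : 2 < q) (h : Nat.Coprime p q)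
    {z : ℂ} (hz : ‖z‖ < 1) :
    Tendsto (fun B : ℕ => ∏ i ∈ (range B ×ˢ range B : Finset (ℕ × ℕ)), (1 + z ^ (a p q i)))
      atTop (𝓝 (G p q z)) := by
  have := hasProd_G hp hq h hz
  rw [HasProd] at this
  exact this.comp tendsto_sq

lemma tendsto_Gr {p q : ℕ} (hp : 2 < p) (hq : 2 < q) (h : Nat.Coprime p q)
    {r : ℝ} (hr0 : 0 ≤ r) (hr1 : r < 1) :
    Tendsto (fun B : ℕ => ∏ i ∈ (range B ×ˢ range B : Finset (ℕ × ℕ)), (1 + r ^ (a p q i)))
      atTop (𝓝 (Gr p q r)) := by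
  have := hasProd_one_add_of_hasSum_prod (hasSum_prod_real hp hq h hr0 hr1)
  rw [HasProd] at this
  exact this.comp tendsto_sq

/-! ### elementary inequalities -/

lemma norm_lower {z : ℂ} (hz : ‖z‖ = 1) {r : ℝ} (hr0 : 0 ≤ r) :
    ‖1 + z‖ / 2 * (1 + r) ≤ ‖1 + (r : ℂ) * z‖ := by
  have h1 : ‖(r : ℂ) + z‖ = ‖1 + (r : ℂ) * z‖ := by
    have hz2 : z.re * z.re + z.im * z.im = 1 := by
      have := Complex.sq_norm z
      rw [hz, Complex.normSq_apply] at this
      linarith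
    have : ‖(r : ℂ) + z‖ ^ 2 = ‖1 + (r : ℂ) * z‖ ^ 2 := by
      rw [Complex.sq_norm, Complex.sq_norm, Complex.normSq_apply, Complex.normSq_apply]
      simp only [Complex.add_re, Complex.ofReal_re, Complex.add_im, Complex.ofReal_im,
        Complex.one_re, Complex.mul_re, Complex.one_im, Complex.mul_im]
      linear_combination (1 - r ^ 2) * hz2
    exact (pow_left_inj₀ (norm_nonneg _) (norm_nonneg _) (by norm_num)).1 this
  have h2 : ‖((1 + r : ℝ) : ℂ) * (1 + z)‖ ≤ ‖1 + (r : ℂ) * z‖ + ‖(r : ℂ) + z‖ := by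
    have : ((1 + r : ℝ) : ℂ) * (1 + z) = (1 + (r : ℂ) * z) + ((r : ℂ) + z) := by
      push_cast; ring
    rw [this]
    exact norm_add_le _ _
  rw [norm_mul, Complex.norm_real, Real.norm_eq_abs, abs_of_nonneg (by linarith), h1] at h2
  linarith

lemma norm_lower' {z : ℂ} (hz : ‖z‖ = 1) {r : ℝ} (hr0 : 0 ≤ r) :
    (1 - 2 * r) * (1 + r) ≤ ‖1 + (r : ℂ) * z‖ := by
  have h1 : 1 - r ≤ ‖1 + (r : ℂ) * z‖ := by
    have := norm_sub_norm_le (1 : ℂ) (-((r : ℂ) * z))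
    rw [norm_neg, norm_mul, hz, Complex.norm_real, Real.norm_eq_abs, abs_of_nonneg hr0,
      sub_neg_eq_add] at this
    simpa using this
  nlinarith

lemma prod_one_sub_ge (x : ℕ → ℝ) (hx0 : ∀ j, 0 ≤ x j) (hx1 : ∀ j, x j ≤ 1) (n : ℕ) :
    1 - ∑ j ∈ range n, x j ≤ ∏ j ∈ range n, (1 - x j) := by
  induction n with
  | zero => simp
  | succ n ih =>
    rw [Finset.sum_range_succ, Finset.prod_range_succ]
    have h1 : 0 ≤ 1 - x n := by linarith [hx1 n]
    have h2 : 0 ≤ ∑ j ∈ range n, x j := Finset.sum_nonneg fun j _ => hx0 j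
    calc 1 - (∑ j ∈ range n, x j + x n) ≤ (1 - ∑ j ∈ range n, x j) * (1 - x n) := by
          nlinarith [hx0 n]
      _ ≤ (∏ j ∈ range n, (1 - x j)) * (1 - x n) := mul_le_mul_of_nonneg_right ih h1

lemma tail_ge {q : ℕ} (hq : 2 < q) (n : ℕ) :
    (1 : ℝ) / 3 ≤ ∏ j ∈ range n, (1 - 2 * (1 / 4 : ℝ) ^ (q ^ j)) := by
  have hle : ∀ j : ℕ, 2 * (1 / 4 : ℝ) ^ (q ^ j) ≤ 1 / 2 * (1 / 4 : ℝ) ^ j := by
    intro j
    have : j + 1 ≤ q ^ j := Nat.succ_le_of_lt (Nat.lt_pow_self (by omega))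
    have := pow_le_pow_of_le_one (by norm_num : (0 : ℝ) ≤ 1 / 4) (by norm_num) this
    rw [pow_succ] at this
    linarith
  have hpw : ∀ j : ℕ, (1 / 4 : ℝ) ^ j ≤ 1 := fun j => pow_le_one₀ (by norm_num) (by norm_num)
  have h1 := prod_one_sub_ge (fun j => 2 * (1 / 4 : ℝ) ^ (q ^ j)) (fun j => by positivity)
    (fun j => by have := hle j; have := hpw j; linarith) n
  have h2 : ∑ j ∈ range n, 2 * (1 / 4 : ℝ) ^ (q ^ j) ≤ 2 / 3 := by
    calc ∑ j ∈ range n, 2 * (1 / 4 : ℝ) ^ (q ^ j) ≤ ∑ j ∈ range n, 1 / 2 * (1 / 4 : ℝ) ^ j :=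
          Finset.sum_le_sum fun j _ => hle j
      _ = 1 / 2 * ∑ j ∈ range n, (1 / 4 : ℝ) ^ j := by rw [Finset.mul_sum]
      _ ≤ 2 / 3 := by
          rw [geom_sum_eq (by norm_num)]
          have h0 : (0 : ℝ) ≤ (1 / 4 : ℝ) ^ n := by positivity
          have h3 : ((1 / 4 : ℝ) ^ n - 1) / (1 / 4 - 1) = 4 / 3 * (1 - (1 / 4 : ℝ) ^ n) := by
            norm_num; ring
          rw [h3]
          linarith
  linarith

/-! ### choice of the root of unity -/

lemma root_exists {p q : ℕ} (hp : 2 < p) (h : Nat.Coprime p q) :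
    ∃ m0 : ℝ, 0 < m0 ∧ ∀ K : ℕ, ∃ ζ : ℂ, ‖ζ‖ = 1 ∧ ζ ^ p = 1 ∧ m0 ≤ ‖1 - ζ‖ ∧
      1 ≤ ∏ β ∈ range K, ‖1 + ζ ^ (q ^ β)‖ := by
  classical
  obtain ⟨k, m, hm, hpm⟩ := Nat.exists_eq_two_pow_mul_odd (n := p) (by omega)
  rcases Nat.lt_or_ge 1 m with hm1 | hm1
  · -- odd divisor `m > 1`
    have hmpos : 0 < m := by omega
    have hcop : Nat.Coprime m q := Nat.Coprime.coprime_dvd_left ⟨2 ^ k, by rw [hpm]; ring⟩ h
    have hprim := Complex.isPrimitiveRoot_exp m (by omega)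
    set R : Finset ℂ := (Polynomial.nthRootsFinset m (1 : ℂ)).erase 1 with hR
    have hmem : ∀ ζ ∈ R, ζ ^ m = 1 ∧ ζ ≠ 1 := by
      intro ζ hζ
      rw [hR, Finset.mem_erase, Polynomial.mem_nthRootsFinset hmpos] at hζ
      exact ⟨hζ.2, hζ.1⟩
    have hmem' : ∀ ζ : ℂ, ζ ^ m = 1 → ζ ≠ 1 → ζ ∈ R := by
      intro ζ h1 h2
      rw [hR, Finset.mem_erase, Polynomial.mem_nthRootsFinset hmpos]
      exact ⟨h2, h1⟩
    have hprod1 : ∏ ζ ∈ R, (1 + ζ) = 1 := by
      have h1 := hprim.pow_add_pow_eq_prod_add_mul (x := (1 : ℂ)) (y := 1) hm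
      have h1mem : (1 : ℂ) ∈ Polynomial.nthRootsFinset m (1 : ℂ) := by
        rw [Polynomial.mem_nthRootsFinset hmpos]; simp
      rw [← Finset.mul_prod_erase _ _ h1mem] at h1
      simp only [one_pow, mul_one] at h1
      have h2 : (2 : ℂ) * 1 = 2 * ∏ ζ ∈ R, (1 + ζ) := by
        rw [hR]; linear_combination h1
      exact (mul_left_cancel₀ (by norm_num) h2).symm
    have hRne : R.Nonempty := by
      refine ⟨_, hmem' _ hprim.pow_eq_one (hprim.ne_one hm1)⟩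
    -- power map is a permutation
    have hperm : ∀ β : ℕ, ∏ ζ ∈ R, (1 + ζ ^ (q ^ β)) = 1 := by
      intro β
      have hc : Nat.Coprime m (q ^ β) := Nat.Coprime.pow_right β hcop
      have hinj : Set.InjOn (fun ζ : ℂ => ζ ^ (q ^ β)) R := by
        intro x hx y hy hxy
        simp only at hxy
        obtain ⟨hx1, _⟩ := hmem x hx
        obtain ⟨hy1, _⟩ := hmem y hy
        have hy0 : y ≠ 0 := by
          rintro rfl
          rw [zero_pow (by omega)] at hy1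
          exact zero_ne_one hy1
        have e1 : (x / y) ^ m = 1 := by rw [div_pow, hx1, hy1, div_one]
        have e2 : (x / y) ^ (q ^ β) = 1 := by
          rw [div_pow, hxy, div_self (pow_ne_zero _ hy0)]
        have e3 : orderOf (x / y) ∣ 1 := by
          have d1 := orderOf_dvd_of_pow_eq_one e1
          have d2 := orderOf_dvd_of_pow_eq_one e2
          have := Nat.dvd_gcd d1 d2
          rwa [hc] at this
        have e4 : x / y = 1 := by
          rw [Nat.dvd_one] at e3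
          exact orderOf_eq_one_iff.1 e3
        field_simp at e4
        exact e4
      have hmaps : ∀ ζ ∈ R, (fun ζ : ℂ => ζ ^ (q ^ β)) ζ ∈ R := by
        intro ζ hζ
        obtain ⟨h1, h2⟩ := hmem ζ hζ
        refine hmem' _ ?_ ?_
        · simp only
          rw [← pow_mul, mul_comm, pow_mul, h1, one_pow]
        · intro h3
          apply h2
          have d1 := orderOf_dvd_of_pow_eq_one h1
          have d2 := orderOf_dvd_of_pow_eq_one h3
          have := Nat.dvd_gcd d1 d2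
          rw [hc, Nat.dvd_one] at this
          exact orderOf_eq_one_iff.1 this
      have himg : R.image (fun ζ : ℂ => ζ ^ (q ^ β)) = R := by
        apply Finset.eq_of_subset_of_card_le
        · intro y hy
          obtain ⟨x, hx, rfl⟩ := Finset.mem_image.1 hy
          exact hmaps x hx
        · rw [Finset.card_image_of_injOn hinj]
      calc ∏ ζ ∈ R, (1 + ζ ^ (q ^ β)) = ∏ ζ ∈ R.image (fun ζ : ℂ => ζ ^ (q ^ β)), (1 + ζ) := by
            rw [Finset.prod_image hinj]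
        _ = 1 := by rw [himg, hprod1]
    obtain ⟨ζ0, hζ0, hmin⟩ := Finset.exists_min_image R (fun ζ => ‖1 - ζ‖) hRne
    refine ⟨‖1 - ζ0‖, ?_, ?_⟩
    · rw [norm_pos_iff, sub_ne_zero]
      exact (hmem ζ0 hζ0).2.symm
    intro K
    by_contra hcon
    push Not at hcon
    have hlt : ∀ ζ ∈ R, ∏ β ∈ range K, ‖1 + ζ ^ (q ^ β)‖ < 1 := by
      intro ζ hζ
      obtain ⟨h1, h2⟩ := hmem ζ hζ
      refine hcon ζ ?_ ?_ (hmin ζ hζ)
      · exact Complex.norm_eq_one_of_pow_eq_one h1 (by omega)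
      · rw [hpm, mul_comm, pow_mul, h1, one_pow]
    have hall : ∏ ζ ∈ R, ∏ β ∈ range K, ‖1 + ζ ^ (q ^ β)‖ = 1 := by
      rw [Finset.prod_comm]
      apply Finset.prod_eq_one
      intro β _
      rw [← norm_prod, hperm β, norm_one]
    have hlt2 : ∏ ζ ∈ R, ∏ β ∈ range K, ‖1 + ζ ^ (q ^ β)‖ < 1 := by
      obtain ⟨ζ1, hζ1⟩ := hRne
      rw [← Finset.mul_prod_erase _ _ hζ1]
      have e1 := hlt ζ1 hζ1
      have e2 : ∏ ζ ∈ R.erase ζ1, ∏ β ∈ range K, ‖1 + ζ ^ (q ^ β)‖ ≤ 1 :=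
        Finset.prod_le_one (fun ζ _ => Finset.prod_nonneg fun β _ => norm_nonneg _)
          (fun ζ hζ => (hlt ζ (Finset.mem_of_mem_erase hζ)).le)
      have e3 : 0 ≤ ∏ β ∈ range K, ‖1 + ζ1 ^ (q ^ β)‖ :=
        Finset.prod_nonneg fun β _ => norm_nonneg _
      have e4 : 0 ≤ ∏ ζ ∈ R.erase ζ1, ∏ β ∈ range K, ‖1 + ζ ^ (q ^ β)‖ :=
        Finset.prod_nonneg fun ζ _ => Finset.prod_nonneg fun β _ => norm_nonneg _
      nlinarith
    rw [hall] at hlt2
    exact lt_irrefl _ hlt2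
  · -- `p = 2 ^ k`, `k ≥ 2`
    have hm' : m = 1 := by
      have : m ≠ 0 := by rintro rfl; simp at hm
      omega
    subst hm'
    rw [mul_one] at hpm
    have hk : 2 ≤ k := by
      by_contra hk
      have : k ≤ 1 := by omega
      have : p ≤ 2 ^ 1 := hpm ▸ Nat.pow_le_pow_right (by norm_num) this
      omega
    have h4 : 4 ∣ p := by
      rw [hpm]
      exact ⟨2 ^ (k - 2), by
        rw [show (4 : ℕ) = 2 ^ 2 by norm_num, ← pow_add]; congr 1; omega⟩
    have hqodd : Odd q := by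
      rw [← Nat.not_even_iff_odd]
      intro he
      have h2p : 2 ∣ p := dvd_trans (by norm_num) h4
      have h2 : 2 ∣ Nat.gcd p q := Nat.dvd_gcd h2p he.two_dvd
      rw [h] at h2
      norm_num at h2
    refine ⟨1, one_pos, fun K => ⟨Complex.I, Complex.norm_I, ?_, ?_, ?_⟩⟩
    · obtain ⟨c, rfl⟩ := h4
      rw [pow_mul, Complex.I_pow_four, one_pow]
    · have : (1 : ℝ) ≤ ‖1 - Complex.I‖ ^ 2 := by
        rw [Complex.sq_norm, Complex.normSq_apply]; simp
      exact (one_le_sq_iff₀ (norm_nonneg _)).1 this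
    · have hone : ∀ β ∈ range K, (1 : ℝ) ≤ ‖1 + Complex.I ^ (q ^ β)‖ := by
        intro β _
        have hodd : Odd (q ^ β) := hqodd.pow
        have hI : Complex.I ^ (q ^ β) = Complex.I ∨ Complex.I ^ (q ^ β) = -Complex.I := by
          obtain ⟨c, hc⟩ := hodd
          rw [hc, pow_succ, pow_mul, Complex.I_sq]
          rcases neg_one_pow_eq_or ℂ c with h1 | h1 <;> rw [h1] <;> simp
        have : (1 : ℝ) ≤ ‖1 + Complex.I ^ (q ^ β)‖ ^ 2 := by
          rw [Complex.sq_norm, Complex.normSq_apply]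
          rcases hI with h1 | h1 <;> rw [h1] <;> simp
        exact (one_le_sq_iff₀ (norm_nonneg _)).1 this
      calc (1 : ℝ) = ∏ β ∈ range K, 1 := by simp
        _ ≤ _ := Finset.prod_le_prod (fun _ _ => zero_le_one) hone

/-! ### lower bound near a root of unity -/

/-- factorwise lower bound -/
noncomputable def dd (q K : ℕ) (ζ : ℂ) (i : ℕ × ℕ) : ℝ :=
  if i.1 = 0 then (if i.2 < K then ‖1 + ζ ^ (q ^ i.2)‖ / 2
    else 1 - 2 * (1 / 4 : ℝ) ^ (q ^ (i.2 - K))) else 1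

lemma quarter_pow_le {q : ℕ} (hq : 2 < q) (n : ℕ) : (1 / 4 : ℝ) ^ (q ^ n) ≤ 1 / 4 := by
  have h1 : 1 ≤ q ^ n := Nat.one_le_pow _ _ (by omega)
  have := pow_le_pow_of_le_one (by norm_num : (0 : ℝ) ≤ 1 / 4) (by norm_num) h1
  simpa using this

lemma dd_nonneg {q K : ℕ} (hq : 2 < q) (ζ : ℂ) (i : ℕ × ℕ) : 0 ≤ dd q K ζ i := by
  unfold dd
  split_ifs
  · positivity
  · have := quarter_pow_le hq (i.2 - K)
    linarith
  · norm_num

lemma dd_le {p q K : ℕ} {ζ : ℂ} (hζ : ‖ζ‖ = 1) (hζp : ζ ^ p = 1)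
    {r : ℝ} (hr0 : 0 ≤ r) (hr : r ^ (q ^ K) = 1 / 4) (i : ℕ × ℕ) :
    dd q K ζ i * (1 + r ^ (a p q i)) ≤ ‖1 + ((r : ℂ) * ζ) ^ (a p q i)‖ := by
  obtain ⟨x, y⟩ := i
  have hz : ∀ n : ℕ, ‖ζ ^ n‖ = 1 := fun n => by rw [norm_pow, hζ, one_pow]
  rcases Nat.eq_zero_or_pos x with hx | hx
  · subst hx
    have ha : a p q (0, y) = q ^ y := by simp [a]
    rw [ha, mul_pow]
    have hcast : (r : ℂ) ^ (q ^ y) = ((r ^ (q ^ y) : ℝ) : ℂ) := by push_cast; rfl
    rw [hcast]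
    have hr' : 0 ≤ r ^ (q ^ y) := by positivity
    by_cases hy : y < K
    · simp only [dd, hy, if_true]
      exact norm_lower (hz _) hr'
    · simp only [dd, hy, if_true, if_false]
      have hle : r ^ (q ^ y) ≤ (1 / 4 : ℝ) ^ (q ^ (y - K)) := by
        have : q ^ y = q ^ K * q ^ (y - K) := by rw [← pow_add]; congr 1; omega
        rw [this, pow_mul, hr]
      refine le_trans ?_ (norm_lower' (hz _) hr')
      exact mul_le_mul_of_nonneg_right (by linarith) (by linarith)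
  · have hone : ((r : ℂ) * ζ) ^ (a p q (x, y)) = ((r ^ (a p q (x, y)) : ℝ) : ℂ) := by
      rw [mul_pow]
      have : ζ ^ (a p q (x, y)) = 1 := by
        obtain ⟨x', rfl⟩ : ∃ x', x = x' + 1 := ⟨x - 1, by omega⟩
        simp only [a, pow_succ]
        rw [show p ^ x' * p * q ^ y = p * (p ^ x' * q ^ y) by ring, pow_mul, hζp, one_pow]
      rw [this, mul_one]
      push_cast
      rfl
    have hx' : x ≠ 0 := by omega
    simp only [dd, hx', if_false, one_mul]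
    rw [hone]
    have : (1 : ℂ) + ((r ^ (a p q (x, y)) : ℝ) : ℂ) = ((1 + r ^ (a p q (x, y)) : ℝ) : ℂ) := by
      push_cast; rfl
    rw [this, Complex.norm_real, Real.norm_eq_abs]
    exact le_abs_self _

lemma prod_dd {q K : ℕ} (hq : 2 < q) {ζ : ℂ}
    (hprod : 1 ≤ ∏ β ∈ range K, ‖1 + ζ ^ (q ^ β)‖) (n : ℕ) :
    (1 / 3 : ℝ) * (1 / 2) ^ K ≤
      ∏ i ∈ (range (K + n + 1) ×ˢ range (K + n + 1) : Finset (ℕ × ℕ)), dd q K ζ i := by
  rw [Finset.prod_product, Finset.prod_range_succ']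
  have h1 : ∏ x ∈ range (K + n), ∏ y ∈ range (K + n + 1), dd q K ζ (x + 1, y) = 1 :=
    Finset.prod_eq_one fun x _ => Finset.prod_eq_one fun y _ => by simp [dd]
  rw [h1, one_mul, show K + n + 1 = K + (n + 1) by ring, Finset.prod_range_add]
  have h2 : ∏ x ∈ range K, dd q K ζ (0, x) = (∏ β ∈ range K, ‖1 + ζ ^ (q ^ β)‖) * (1 / 2) ^ K := by
    have : ∀ x ∈ range K, dd q K ζ (0, x) = ‖1 + ζ ^ (q ^ x)‖ * (1 / 2) := by
      intro x hx
      rw [Finset.mem_range] at hx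
      simp only [dd, hx, if_true]
      ring
    rw [Finset.prod_congr rfl this, Finset.prod_mul_distrib, Finset.prod_const,
      Finset.card_range]
  have h3 : ∏ x ∈ range (n + 1), dd q K ζ (0, K + x)
      = ∏ j ∈ range (n + 1), (1 - 2 * (1 / 4 : ℝ) ^ (q ^ j)) := by
    refine Finset.prod_congr rfl fun x _ => ?_
    have : ¬ (K + x < K) := by omega
    simp only [dd, this, if_true, if_false, Nat.add_sub_cancel_left]
  rw [h2, h3]
  have h4 := tail_ge hq (n + 1)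
  have h5 : (0 : ℝ) ≤ (1 / 2) ^ K := by positivity
  calc (1 / 3 : ℝ) * (1 / 2) ^ K = (1 * (1 / 2) ^ K) * (1 / 3) := by ring
    _ ≤ ((∏ β ∈ range K, ‖1 + ζ ^ (q ^ β)‖) * (1 / 2) ^ K)
          * ∏ j ∈ range (n + 1), (1 - 2 * (1 / 4 : ℝ) ^ (q ^ j)) := by
        apply mul_le_mul _ h4 (by norm_num)
        · exact mul_nonneg (le_trans zero_le_one hprod) h5
        · exact mul_le_mul_of_nonneg_right hprod h5

lemma main_lower {p q K : ℕ} (hp : 2 < p) (hq : 2 < q) (h : Nat.Coprime p q) {ζ : ℂ}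
    (hζ : ‖ζ‖ = 1) (hζp : ζ ^ p = 1) (hprod : 1 ≤ ∏ β ∈ range K, ‖1 + ζ ^ (q ^ β)‖)
    {r : ℝ} (hr0 : 0 ≤ r) (hr1 : r < 1) (hr : r ^ (q ^ K) = 1 / 4) :
    (1 / 3 : ℝ) * (1 / 2) ^ K * Gr p q r ≤ ‖G p q ((r : ℂ) * ζ)‖ := by
  have hz : ‖(r : ℂ) * ζ‖ < 1 := by
    rw [norm_mul, hζ, mul_one]
    exact norm_ofReal_lt hr0 hr1
  have t1 := (tendsto_G hp hq h hz).norm
  have t2 := (tendsto_Gr hp hq h hr0 hr1).const_mul ((1 / 3 : ℝ) * (1 / 2) ^ K)
  refine le_of_tendsto_of_tendsto t2 t1 ?_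
  filter_upwards [eventually_ge_atTop (K + 1)] with B hB
  obtain ⟨n, rfl⟩ : ∃ n, B = K + n + 1 := ⟨B - (K + 1), by omega⟩
  rw [norm_prod]
  calc (1 / 3 : ℝ) * (1 / 2) ^ K *
        ∏ i ∈ (range (K + n + 1) ×ˢ range (K + n + 1) : Finset (ℕ × ℕ)), (1 + r ^ (a p q i))
      ≤ (∏ i ∈ (range (K + n + 1) ×ˢ range (K + n + 1) : Finset (ℕ × ℕ)), dd q K ζ i) *
        ∏ i ∈ (range (K + n + 1) ×ˢ range (K + n + 1) : Finset (ℕ × ℕ)), (1 + r ^ (a p q i)) :=
        mul_le_mul_of_nonneg_right (prod_dd hq hprod n)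
          (Finset.prod_nonneg fun i _ => by positivity)
    _ = ∏ i ∈ (range (K + n + 1) ×ˢ range (K + n + 1) : Finset (ℕ × ℕ)),
          dd q K ζ i * (1 + r ^ (a p q i)) := by rw [Finset.prod_mul_distrib]
    _ ≤ _ := Finset.prod_le_prod
          (fun i _ => mul_nonneg (dd_nonneg hq ζ i) (by positivity))
          (fun i _ => dd_le hζ hζp hr0 hr i)

/-! ### upper bound under eventual monotonicity -/

lemma hasSum_diff {p q : ℕ} (hp : 2 < p) (hq : 2 < q) (h : Nat.Coprime p q)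
    {z : ℂ} (hz : ‖z‖ < 1) :
    HasSum (fun n => ((f p q (n + 1) : ℂ) - f p q n) * z ^ (n + 1))
      ((1 - z) * G p q z - f p q 0) := by
  have h1 := hasSum_G hp hq h hz
  have h2 := (hasSum_nat_add_iff' 1).2 h1
  have h3 := h1.mul_right z
  have h4 := h2.sub h3
  have e1 : (fun n => ((f p q (n + 1) : ℂ) - f p q n) * z ^ (n + 1))
      = fun b => (f p q (b + 1) : ℂ) * z ^ (b + 1) - (f p q b : ℂ) * z ^ b * z := by
    funext n; rw [pow_succ]; ring
  have e2 : (1 - z) * G p q z - (f p q 0 : ℂ)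
      = G p q z - ∑ i ∈ range 1, (f p q i : ℂ) * z ^ i - G p q z * z := by
    rw [Finset.sum_range_one, pow_zero, mul_one]; ring
  rw [e1, e2]
  exact h4

lemma hasSum_diff_real {p q : ℕ} (hp : 2 < p) (hq : 2 < q) (h : Nat.Coprime p q)
    {r : ℝ} (hr0 : 0 ≤ r) (hr1 : r < 1) :
    HasSum (fun n => ((f p q (n + 1) : ℝ) - f p q n) * r ^ (n + 1))
      ((1 - r) * Gr p q r - f p q 0) := by
  have h1 := hasSum_Gr hp hq h hr0 hr1
  have h2 := (hasSum_nat_add_iff' 1).2 h1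
  have h3 := h1.mul_right r
  have h4 := h2.sub h3
  have e1 : (fun n => ((f p q (n + 1) : ℝ) - f p q n) * r ^ (n + 1))
      = fun b => (f p q (b + 1) : ℝ) * r ^ (b + 1) - (f p q b : ℝ) * r ^ b * r := by
    funext n; rw [pow_succ]; ring
  have e2 : (1 - r) * Gr p q r - (f p q 0 : ℝ)
      = Gr p q r - ∑ i ∈ range 1, (f p q i : ℝ) * r ^ i - Gr p q r * r := by
    rw [Finset.sum_range_one, pow_zero, mul_one]; ring
  rw [e1, e2]
  exact h4

lemma upper {p q : ℕ} (hp : 2 < p) (hq : 2 < q) (h : Nat.Coprime p q) (N : ℕ)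
    (hmono : ∀ n, N ≤ n → f p q n ≤ f p q (n + 1)) :
    ∃ C : ℝ, ∀ z : ℂ, ‖z‖ < 1 → ‖1 - z‖ * ‖G p q z‖ ≤ (1 - ‖z‖) * Gr p q ‖z‖ + C := by
  set u : ℕ → ℝ := fun n => (f p q (n + 1) : ℝ) - f p q n with hu
  refine ⟨∑ n ∈ range N, 2 * |u n|, ?_⟩
  intro z hz
  set r := ‖z‖ with hr
  have hr0 : 0 ≤ r := norm_nonneg z
  have s1 := hasSum_diff hp hq h hz
  have s2 := hasSum_diff_real hp hq h hr0 hz
  -- correction term
  have s3 : HasSum (fun n => if n ∈ range N then 2 * |u n| else 0) (∑ n ∈ range N, 2 * |u n|) := by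
    have e0 : ∑ n ∈ range N, 2 * |u n|
        = ∑ n ∈ range N, (if n ∈ range N then 2 * |u n| else 0) :=
      Finset.sum_congr rfl fun n hn => by simp only [hn, if_true]
    rw [e0]
    exact hasSum_sum_of_ne_finset_zero (L := SummationFilter.unconditional ℕ)
      (f := fun n => if n ∈ range N then 2 * |u n| else 0)
      (s := range N) (fun b hb => by simp only [hb, if_false])
  have s4 := s2.add s3
  have hbound : ∀ n, ‖((f p q (n + 1) : ℂ) - f p q n) * z ^ (n + 1)‖ ≤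
      ((f p q (n + 1) : ℝ) - f p q n) * r ^ (n + 1) +
        (if n ∈ range N then 2 * |u n| else 0) := by
    intro n
    have e1 : ((f p q (n + 1) : ℂ) - f p q n) = ((u n : ℝ) : ℂ) := by
      simp only [hu]; push_cast; rfl
    rw [e1, norm_mul, norm_pow, Complex.norm_real, Real.norm_eq_abs, ← hr]
    have e2 : r ^ (n + 1) ≤ 1 := pow_le_one₀ hr0 hz.le
    have e3 : 0 ≤ r ^ (n + 1) := by positivity
    change |u n| * r ^ (n + 1) ≤ u n * r ^ (n + 1) + _
    by_cases hn : n ∈ range N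
    · simp only [hn, if_true]
      have e4 : -|u n| ≤ u n := neg_abs_le (u n)
      have e5 : 0 ≤ |u n| := abs_nonneg _
      nlinarith
    · simp only [hn, if_false, add_zero]
      rw [Finset.mem_range, not_lt] at hn
      have : 0 ≤ u n := by
        simp only [hu]
        have := hmono n hn
        have : (f p q n : ℝ) ≤ f p q (n + 1) := by exact_mod_cast this
        linarith
      rw [abs_of_nonneg this]
  have s5 : ‖(1 - z) * G p q z - f p q 0‖ ≤
      (1 - r) * Gr p q r - f p q 0 + ∑ n ∈ range N, 2 * |u n| :=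
    s1.norm_le_of_bounded s4 hbound
  have s6 : ‖(1 - z) * G p q z‖ ≤ ‖(1 - z) * G p q z - f p q 0‖ + ‖(f p q 0 : ℂ)‖ := by
    have := norm_add_le ((1 - z) * G p q z - f p q 0) (f p q 0 : ℂ)
    simpa using this
  rw [norm_mul] at s6
  have s7 : ‖(f p q 0 : ℂ)‖ = f p q 0 := by simp
  rw [s7] at s6
  linarith

/-! ### growth of the generating function -/

lemma Gr_growth {p q : ℕ} (hp : 2 < p) (hpq : p < q) (h : Nat.Coprime p q)
    {r : ℝ} (hr0 : 0 ≤ r) (hr1 : r < 1) {K M : ℕ} (hM : M ≤ K) (hr : r ^ (q ^ K) = 1 / 4) :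
    (((5 : ℝ) / 4) ^ M) ^ (K + 1 - M) ≤ Gr p q r := by
  have hq : 2 < q := by omega
  refine le_trans ?_ (prod_le_Gr hp hq h hr0 hr1 (range M ×ˢ range (K + 1 - M)))
  have : (((5 : ℝ) / 4) ^ M) ^ (K + 1 - M) = ∏ i ∈ range M ×ˢ range (K + 1 - M), (5 / 4 : ℝ) := by
    rw [Finset.prod_const, Finset.card_product, Finset.card_range, Finset.card_range, pow_mul]
  rw [this]
  refine Finset.prod_le_prod (fun _ _ => by norm_num) ?_
  rintro ⟨x, y⟩ hi
  simp only [Finset.mem_product, Finset.mem_range] at hi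
  have ha : a p q (x, y) ≤ q ^ K := by
    calc a p q (x, y) = p ^ x * q ^ y := rfl
      _ ≤ q ^ x * q ^ y := Nat.mul_le_mul_right _ (Nat.pow_le_pow_left hpq.le _)
      _ = q ^ (x + y) := by rw [pow_add]
      _ ≤ q ^ K := Nat.pow_le_pow_right (by omega) (by omega)
  have := pow_le_pow_of_le_one hr0 hr1.le ha
  rw [hr] at this
  linarith

/-- the sample radii -/
lemma radius (q : ℕ) (hq : 2 < q) (K : ℕ) : ∃ r : ℝ, 0 ≤ r ∧ r < 1 ∧ r ^ (q ^ K) = 1 / 4 ∧
    1 - r ≤ 2 / (q : ℝ) ^ K := by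
  have hqK : (0 : ℝ) < (q : ℝ) ^ K := by positivity
  have hlog : 0 < Real.log 4 := Real.log_pos (by norm_num)
  refine ⟨Real.exp (-(Real.log 4 / (q : ℝ) ^ K)), (Real.exp_pos _).le, ?_, ?_, ?_⟩
  · rw [Real.exp_lt_one_iff]
    have : 0 < Real.log 4 / (q : ℝ) ^ K := by positivity
    linarith
  · rw [← Real.exp_nat_mul]
    have : ((q ^ K : ℕ) : ℝ) * -(Real.log 4 / (q : ℝ) ^ K) = - Real.log 4 := by
      push_cast; field_simp
    rw [this, Real.exp_neg, Real.exp_log (by norm_num)]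
    norm_num
  · have h1 := Real.add_one_le_exp (-(Real.log 4 / (q : ℝ) ^ K))
    have h2 : Real.log 4 ≤ 2 := by
      have : Real.log 4 = 2 * Real.log 2 := by
        rw [show (4 : ℝ) = 2 ^ 2 by norm_num, Real.log_pow]; norm_num
      have := Real.log_two_lt_d9
      linarith
    have h3 : Real.log 4 / (q : ℝ) ^ K ≤ 2 / (q : ℝ) ^ K :=
      div_le_div_of_nonneg_right h2 hqK.le
    linarith

/-! ### the two halves -/

lemma infinitely_many_drops {p q : ℕ} (hp : 2 < p) (hpq : p < q) (h : Nat.Coprime p q) (N : ℕ) :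
    ∃ n, N ≤ n ∧ f p q (n + 1) < f p q n := by
  by_contra hcon
  push Not at hcon
  have hq : 2 < q := by omega
  obtain ⟨C, hC⟩ := upper hp hq h N hcon
  obtain ⟨m0, hm0, hroot⟩ := root_exists (q := q) hp h
  -- `K0` with `2 * (1/2)^K ≤ m0 / 12`
  have key : ∀ K : ℕ, 7 ≤ K → 2 * (1 / 2 : ℝ) ^ K ≤ m0 / 12 →
      (4 : ℝ) ^ (K - 6) * (m0 / 12) ≤ C * 2 ^ K := by
    intro K hK7 hKm
    obtain ⟨ζ, hζ, hζp, hζm, hζprod⟩ := hroot K
    obtain ⟨r, hr0, hr1, hr, hr2⟩ := radius q hq K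
    have h1 := main_lower hp hq h hζ hζp hζprod hr0 hr1 hr
    have hnorm : ‖(r : ℂ) * ζ‖ = r := by
      rw [norm_mul, hζ, mul_one, Complex.norm_real, Real.norm_eq_abs, abs_of_nonneg hr0]
    have h2 := hC ((r : ℂ) * ζ) (by rw [hnorm]; exact hr1)
    rw [hnorm] at h2
    have h3 : m0 / 2 ≤ ‖1 - (r : ℂ) * ζ‖ := by
      have := norm_lower (z := -ζ) (by rw [norm_neg, hζ]) hr0
      rw [mul_neg, ← sub_eq_add_neg, ← sub_eq_add_neg] at this
      have h4 : m0 / 2 ≤ ‖1 - ζ‖ / 2 * (1 + r) := by nlinarith [norm_nonneg (1 - ζ)]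
      linarith
    have hG0 : 0 ≤ Gr p q r := Gr_nonneg hr0
    have hA : (0 : ℝ) < (1 / 2) ^ K := by positivity
    have h5 : m0 / 2 * ((1 / 3 : ℝ) * (1 / 2) ^ K * Gr p q r) ≤
        ‖1 - (r : ℂ) * ζ‖ * ‖G p q ((r : ℂ) * ζ)‖ :=
      mul_le_mul h3 h1 (by positivity) (norm_nonneg _)
    have h6 : (1 - r) * Gr p q r ≤ 2 * (1 / 2) ^ K * (1 / 2) ^ K * Gr p q r := by
      apply mul_le_mul_of_nonneg_right _ hG0
      refine le_trans hr2 ?_
      have hq4 : (4 : ℝ) ^ K ≤ (q : ℝ) ^ K :=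
        pow_le_pow_left₀ (by norm_num) (by exact_mod_cast (by omega : 4 ≤ q)) K
      have e1 : 2 / (q : ℝ) ^ K ≤ 2 / (4 : ℝ) ^ K :=
        div_le_div_of_nonneg_left (by norm_num) (by positivity) hq4
      have e2 : 2 * (1 / 2 : ℝ) ^ K * (1 / 2) ^ K = 2 / (4 : ℝ) ^ K := by
        rw [mul_assoc, ← mul_pow, show (1 / 2 : ℝ) * (1 / 2) = 1 / 4 by norm_num, one_div_pow]
        ring
      rw [e2]; exact e1
    have h7 : 2 * (1 / 2) ^ K * (1 / 2) ^ K * Gr p q r ≤ m0 / 12 * ((1 / 2) ^ K * Gr p q r) := by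
      have : 0 ≤ (1 / 2) ^ K * Gr p q r := by positivity
      calc 2 * (1 / 2) ^ K * (1 / 2) ^ K * Gr p q r
          = (2 * (1 / 2) ^ K) * ((1 / 2) ^ K * Gr p q r) := by ring
        _ ≤ m0 / 12 * ((1 / 2) ^ K * Gr p q r) := mul_le_mul_of_nonneg_right hKm this
    have h8 : m0 / 12 * ((1 / 2) ^ K * Gr p q r) ≤ C := by nlinarith
    have h9 : Gr p q r * (m0 / 12) ≤ C * 2 ^ K := by
      have e1 : (1 / 2 : ℝ) ^ K * 2 ^ K = 1 := by
        rw [← mul_pow]; norm_num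
      calc Gr p q r * (m0 / 12) = (m0 / 12 * ((1 / 2) ^ K * Gr p q r)) * 2 ^ K := by
            linear_combination (-(Gr p q r * (m0 / 12))) * e1
        _ ≤ C * 2 ^ K := mul_le_mul_of_nonneg_right h8 (by positivity)
    refine le_trans ?_ h9
    apply mul_le_mul_of_nonneg_right _ (by positivity)
    have hg := Gr_growth hp hpq h hr0 hr1 (M := 7) (K := K) hK7 hr
    have hK : K + 1 - 7 = K - 6 := by omega
    rw [hK] at hg
    refine le_trans ?_ hg
    exact pow_le_pow_left₀ (by norm_num) (by norm_num) _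
  obtain ⟨n, hn⟩ := pow_unbounded_of_one_lt (24 / m0 + 49152 * |C| / m0) (one_lt_two : (1 : ℝ) < 2)
  have hK7 : 7 ≤ n + 7 := by omega
  have hpos1 : 0 ≤ 24 / m0 := by positivity
  have hpos2 : 0 ≤ 49152 * |C| / m0 := by positivity
  have hbig : 24 / m0 + 49152 * |C| / m0 < (2 : ℝ) ^ (n + 7) := by
    refine lt_of_lt_of_le hn ?_
    exact pow_le_pow_right₀ (by norm_num) (by omega)
  have hX : (0 : ℝ) < 2 ^ (n + 7) := by positivity
  have c1 : 2 * (1 / 2 : ℝ) ^ (n + 7) ≤ m0 / 12 := by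
    have e1 : 24 / m0 < (2 : ℝ) ^ (n + 7) := by linarith
    rw [div_lt_iff₀ hm0] at e1
    rw [one_div_pow]
    rw [mul_one_div, div_le_div_iff₀ hX (by norm_num)]
    linarith
  have c2 := key (n + 7) hK7 c1
  have e2 : 49152 * |C| / m0 < (2 : ℝ) ^ (n + 7) := by linarith
  rw [div_lt_iff₀ hm0] at e2
  have e3 : (4 : ℝ) ^ (n + 7 - 6) * 4096 = 2 ^ (n + 7) * 2 ^ (n + 7) := by
    have e6 : n + 7 - 6 = n + 1 := by omega
    rw [e6, ← mul_pow, show (2 : ℝ) * 2 = 4 by norm_num]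
    ring
  have e4 : C ≤ |C| := le_abs_self C
  have e5 : 0 ≤ |C| := abs_nonneg C
  have c3 : (4 : ℝ) ^ (n + 7 - 6) * 4096 * (m0 / 12) ≤ 4096 * (C * 2 ^ (n + 7)) := by
    nlinarith [c2]
  rw [e3] at c3
  have c4 : (2 : ℝ) ^ (n + 7) * (2 ^ (n + 7) * m0) ≤ 2 ^ (n + 7) * (49152 * |C|) := by
    have : 4096 * (C * 2 ^ (n + 7)) ≤ 4096 * (|C| * 2 ^ (n + 7)) := by
      have := mul_le_mul_of_nonneg_right e4 hX.le
      linarith
    nlinarith
  have c5 := le_of_mul_le_mul_left c4 hX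
  linarith

lemma infinitely_many_rises {p q : ℕ} (hp : 2 < p) (hpq : p < q) (h : Nat.Coprime p q) (N : ℕ) :
    ∃ n, N ≤ n ∧ f p q n < f p q (n + 1) := by
  by_contra hcon
  push Not at hcon
  have hq : 2 < q := by omega
  -- `f` is bounded
  obtain ⟨B, hB⟩ : ∃ B : ℕ, ∀ n, f p q n ≤ B := by
    refine ⟨∑ n ∈ range (N + 1), f p q n, ?_⟩
    have hanti : ∀ k, f p q (N + k) ≤ f p q N := by
      intro k
      induction k with
      | zero => exact le_rfl
      | succ k ih => exact le_trans (hcon (N + k) (by omega)) ih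
    intro n
    rcases Nat.lt_or_ge n (N + 1) with hn | hn
    · exact Finset.single_le_sum (f := fun n => f p q n) (fun _ _ => Nat.zero_le _)
        (Finset.mem_range.2 hn)
    · obtain ⟨k, rfl⟩ : ∃ k, n = N + k := ⟨n - N, by omega⟩
      refine le_trans (hanti k) ?_
      exact Finset.single_le_sum (f := fun n => f p q n) (fun _ _ => Nat.zero_le _)
        (Finset.mem_range.2 (by omega))
  have hGB : ∀ r : ℝ, 0 ≤ r → r < 1 → Gr p q r * (1 - r) ≤ B := by
    intro r hr0 hr1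
    have s1 := hasSum_Gr hp hq h hr0 hr1
    have s2 := (hasSum_geometric_of_lt_one hr0 hr1).mul_left (B : ℝ)
    have : Gr p q r ≤ B * (1 - r)⁻¹ := by
      refine hasSum_le ?_ s1 s2
      intro n
      exact mul_le_mul_of_nonneg_right (by exact_mod_cast hB n) (by positivity)
    have h1 : 0 < 1 - r := by linarith
    calc Gr p q r * (1 - r) ≤ B * (1 - r)⁻¹ * (1 - r) :=
          mul_le_mul_of_nonneg_right this h1.le
      _ = B := by field_simp
  obtain ⟨M, hM⟩ := pow_unbounded_of_one_lt (2 * (q : ℝ)) (by norm_num : (1 : ℝ) < 5 / 4)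
  have hq0 : (0 : ℝ) < q := by exact_mod_cast (by omega : 0 < q)
  obtain ⟨n, hn⟩ := pow_unbounded_of_one_lt (2 * (B : ℝ) * (q : ℝ) ^ M)
    (one_lt_two : (1 : ℝ) < 2)
  obtain ⟨r, hr0, hr1, hr, _⟩ := radius q hq (M + n)
  have hg := Gr_growth hp hpq h hr0 hr1 (M := M) (K := M + n) (by omega) hr
  have hMn : M + n + 1 - M = n + 1 := by omega
  rw [hMn] at hg
  have hg2 : (2 * (q : ℝ)) ^ (n + 1) ≤ Gr p q r :=
    le_trans (pow_le_pow_left₀ (by positivity) hM.le _) hg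
  -- `1 - r ≥ (3/4) / q^(M+n)`
  have hber : 3 / 4 ≤ (q : ℝ) ^ (M + n) * (1 - r) := by
    have := one_add_mul_le_pow (a := r - 1) (by linarith) (q ^ (M + n))
    rw [show 1 + (r - 1) = r by ring, hr] at this
    push_cast at this
    linarith
  have hb := hGB r hr0 hr1
  have hpw : (0 : ℝ) < (q : ℝ) ^ (M + n) := by positivity
  have h1r : 0 < 1 - r := by linarith
  have h3 : Gr p q r * (3 / 4) ≤ B * (q : ℝ) ^ (M + n) := by
    calc Gr p q r * (3 / 4) ≤ Gr p q r * ((q : ℝ) ^ (M + n) * (1 - r)) :=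
          mul_le_mul_of_nonneg_left hber (Gr_nonneg hr0)
      _ = (Gr p q r * (1 - r)) * (q : ℝ) ^ (M + n) := by ring
      _ ≤ B * (q : ℝ) ^ (M + n) := mul_le_mul_of_nonneg_right hb hpw.le
  have h4 : (2 * (q : ℝ)) ^ (n + 1) * (3 / 4) ≤ B * (q : ℝ) ^ (M + n) :=
    le_trans (mul_le_mul_of_nonneg_right hg2 (by norm_num)) h3
  have hqn : (0 : ℝ) < (q : ℝ) ^ n := by positivity
  have h5 : (2 : ℝ) ^ (n + 1) * (q : ℝ) * (3 / 4) ≤ B * (q : ℝ) ^ M := by
    have : (q : ℝ) ^ n * ((2 : ℝ) ^ (n + 1) * (q : ℝ) * (3 / 4)) ≤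
        (q : ℝ) ^ n * (B * (q : ℝ) ^ M) := by
      calc (q : ℝ) ^ n * ((2 : ℝ) ^ (n + 1) * (q : ℝ) * (3 / 4))
          = (2 * (q : ℝ)) ^ (n + 1) * (3 / 4) := by rw [mul_pow]; ring
        _ ≤ B * (q : ℝ) ^ (M + n) := h4
        _ = (q : ℝ) ^ n * (B * (q : ℝ) ^ M) := by rw [pow_add]; ring
    exact le_of_mul_le_mul_left this hqn
  have h6 : (1 : ℝ) ≤ q := by exact_mod_cast (by omega : 1 ≤ q)
  have h7 : (2 : ℝ) ^ n ≤ (2 : ℝ) ^ (n + 1) * (q : ℝ) * (3 / 4) := by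
    rw [pow_succ]
    have : (0 : ℝ) < 2 ^ n := by positivity
    nlinarith
  have h8 : (0 : ℝ) ≤ B * (q : ℝ) ^ M := by positivity
  linarith

/-- For all coprime `q > p > 2`, the difference `f_{p,q}(n+1) - f_{p,q}(n)` is positive for
infinitely many `n` and negative for infinitely many `n`: its sign changes infinitely often. -/
theorem result (p q : ℕ) (hp : 2 < p) (hpq : p < q) (h : Nat.Coprime p q) :
    (∀ N, ∃ n, N ≤ n ∧ f p q n < f p q (n + 1)) ∧
      (∀ N, ∃ n, N ≤ n ∧ f p q (n + 1) < f p q n) :=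
  ⟨infinitely_many_rises hp hpq h, infinitely_many_drops hp hpq h⟩

end Pool.Agent.Results.MP_b44203_nt.SignChanges
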